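import Pool.Agent.W662.SK.StmtsB

/-!
# Project SK: elementary properties of `sg`
-/

set_option autoImplicit false

open scoped InnerProductSpace ENNReal

namespace Pool.Agent.W762.SK

open Pool.Agent.W662.SK

section
variable {Γ K : Type} [Group Γ] [NormedAddCommGroup K] [InnerProductSpace ℂ K]

theorem sg_apply (π : Γ →* (K ≃ₗᵢ[ℂ] K)) (c : L2 Γ K →L[ℂ] L2 Γ K) (f : L2 Γ K) :
    sg π c f = Wop π (c ((Wop π).symm f)) := rfl

theorem sg_norm (π : Γ →* (K ≃ₗᵢ[ℂ] K)) (a : L2 Γ K →L[ℂ] L2 Γ K) : ‖sg π a‖ = ‖a‖ := by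
  apply le_antisymm
  · refine ContinuousLinearMap.opNorm_le_bound _ (ContinuousLinearMap.opNorm_nonneg _) fun f => ?_
    rw [sg_apply, LinearIsometryEquiv.norm_map]
    refine (a.le_opNorm _).trans ?_
    rw [LinearIsometryEquiv.norm_map]
  · refine ContinuousLinearMap.opNorm_le_bound _ (ContinuousLinearMap.opNorm_nonneg _) fun f => ?_
    have h1 : sg π a (Wop π f) = Wop π (a f) := by
      rw [sg_apply, LinearIsometryEquiv.symm_apply_apply]
    have h2 := (sg π a).le_opNorm (Wop π f)
    rwa [h1, LinearIsometryEquiv.norm_map, LinearIsometryEquiv.norm_map] at h2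

end

theorem b0 : S_B0 := by
  intro Γ K _ _ _ _ π
  refine ⟨fun a b => ?_, fun a => ?_, fun a b => ?_, fun c a => ?_, ?_, sg_norm π⟩
  · refine ContinuousLinearMap.ext fun f => ?_
    show Wop π (a (b ((Wop π).symm f))) =
      Wop π (a ((Wop π).symm (Wop π (b ((Wop π).symm f)))))
    rw [LinearIsometryEquiv.symm_apply_apply]
  · have h1 : star (sg π a) = ContinuousLinearMap.adjoint (sg π a) := rfl
    have h2 : star a = ContinuousLinearMap.adjoint a := rfl
    rw [h1, h2]
    unfold sg
    rw [ContinuousLinearMap.adjoint_comp, ContinuousLinearMap.adjoint_comp, adjoint_cl,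
      adjoint_cl]
    rfl
  · refine ContinuousLinearMap.ext fun f => ?_
    show Wop π (a ((Wop π).symm f) + b ((Wop π).symm f)) = _
    rw [map_add]
    rfl
  · refine ContinuousLinearMap.ext fun f => ?_
    show Wop π (c • a ((Wop π).symm f)) = _
    rw [map_smul]
    rfl
  · refine ContinuousLinearMap.ext fun f => ?_
    show Wop π ((Wop π).symm f) = f
    rw [LinearIsometryEquiv.apply_symm_apply]

end Pool.Agent.W762.SK
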